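import Pool.Agent.helper24.SG.SpecD

/-!
# Project sg: (MP_2b8aea_gt), module D12: singular measures and small balls
-/

set_option autoImplicit false

open MeasureTheory Set Metric Filter Topology
open scoped ENNReal NNReal ComplexConjugate

namespace Pool.Agent.SG

theorem D12_geom (m : ℕ) : ∑ i ∈ Finset.range m, (1 / 2 : ℝ) ^ (i + 1) = 1 - (1 / 2) ^ m := by
  induction m with
  | zero => simp
  | succ k ih =>
    rw [Finset.sum_range_succ, ih]
    ring

theorem D12_dist (θ θ' : ℝ) : dist (circleMap 0 1 θ) (circleMap 0 1 θ') ≤ dist θ θ' := by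
  have h := (lipschitzWith_circleMap 0 1).dist_le_mul θ θ'
  simpa using h

/-- covering of a null set of the line -/
theorem D12_cover (P : Set ℝ) (hP : volume P = 0) (δ : ℝ) (hδ : 0 < δ) :
    ∃ (t : ℕ → Set ℝ) (D : ℕ → ℝ), P ⊆ ⋃ n, t n ∧ (∀ n, 0 ≤ D n) ∧
      (∀ n, ∀ x ∈ t n, ∀ y ∈ t n, dist x y ≤ D n) ∧
      ∀ m : ℕ, ∑ n ∈ Finset.range m, D n ≤ δ := by
  rw [← hausdorffMeasure_real, Measure.hausdorffMeasure_apply] at hP
  have h1 : (⨅ (t : ℕ → Set ℝ) (_ : P ⊆ ⋃ n, t n) (_ : ∀ n : ℕ, ediam (t n) ≤ 1),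
      ∑' n : ℕ, ⨆ (_ : (t n).Nonempty), ediam (t n) ^ (1 : ℝ)) < ENNReal.ofReal δ := by
    refine lt_of_le_of_lt ?_ (ENNReal.ofReal_pos.2 hδ)
    rw [← hP]
    exact le_iSup₂_of_le 1 one_pos le_rfl
  rw [iInf_lt_iff] at h1
  obtain ⟨t, h1⟩ := h1
  rw [iInf_lt_iff] at h1
  obtain ⟨h2, h1⟩ := h1
  rw [iInf_lt_iff] at h1
  obtain ⟨h3, h1⟩ := h1
  set e : ℕ → ℝ≥0∞ := fun n => ⨆ (_ : (t n).Nonempty), ediam (t n) ^ (1 : ℝ) with he
  have hfin : ∑' n, e n ≠ ⊤ := (h1.trans ENNReal.ofReal_lt_top).ne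
  have hen : ∀ n, e n ≠ ⊤ := fun n => ne_top_of_le_ne_top hfin (ENNReal.le_tsum n)
  refine ⟨t, fun n => (e n).toReal, h2, fun n => ENNReal.toReal_nonneg, ?_, ?_⟩
  · intro n x hx y hy
    have h4 : edist x y ≤ e n := by
      refine (edist_le_ediam_of_mem hx hy).trans ?_
      rw [he]
      simp only [ENNReal.rpow_one]
      exact le_iSup (fun _ : (t n).Nonempty => ediam (t n)) ⟨x, hx⟩
    rw [edist_dist] at h4
    have h5 := ENNReal.toReal_mono (hen n) h4
    rwa [ENNReal.toReal_ofReal dist_nonneg] at h5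
  · intro m
    rw [← ENNReal.toReal_sum fun n _ => hen n]
    refine ENNReal.toReal_le_of_le_ofReal hδ.le ?_
    exact (ENNReal.sum_le_tsum _).trans h1.le

theorem D12_null (K : Set ℂ) (hK : MeasurableSet K) (h : lam K = 0) :
    volume (circleMap 0 1 ⁻¹' K ∩ Ioc 0 (2 * Real.pi)) = 0 := by
  unfold lam at h
  rw [Measure.smul_apply, smul_eq_mul, mul_eq_zero] at h
  rcases h with h | h
  · exfalso
    rw [ENNReal.inv_eq_zero] at h
    exact ENNReal.ofReal_ne_top h
  · have hm : Measurable (circleMap 0 1) := (continuous_circleMap 0 1).measurable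
    rw [Measure.map_apply hm hK, Measure.restrict_apply (hm hK)] at h
    exact h

theorem D12 : D12_stmt := by
  intro ν hν hc hs ε hε
  obtain ⟨s, hs1, hs2, hs3⟩ := hs
  have hcm : MeasurableSet circ := isClosed_sphere.measurableSet
  have hY : MeasurableSet (sᶜ ∩ circ) := hs1.compl.inter hcm
  have hYν : ν (sᶜ ∩ circ) = 1 := by
    have h1 : ν (sᶜ ∩ circ)ᶜ = 0 := by
      rw [compl_inter, compl_compl]
      exact measure_union_null hs2 hc
    rwa [prob_compl_eq_zero_iff hY] at h1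
  obtain ⟨K, hKY, hK, hKν⟩ := hY.exists_lt_isCompact (μ := ν) (r := 7 / 8) (by
    rw [hYν]
    refine (ENNReal.div_lt_iff (Or.inl (by norm_num)) (Or.inl (by norm_num))).2 ?_
    norm_num)
  have hKl : lam K = 0 := measure_mono_null (hKY.trans inter_subset_left) hs3
  have hP := D12_null K hK.isClosed.measurableSet hKl
  obtain ⟨t, D, h1, h2, h3, h4⟩ := D12_cover _ hP (ε / 2) (half_pos hε)
  classical
  set c : ℕ → ℂ := fun n => if h : (t n).Nonempty then circleMap 0 1 h.some else 0 with hcd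
  set r : ℕ → ℝ := fun n => D n + ε / 2 * (1 / 2) ^ (n + 1) with hrd
  have hr : ∀ n, 0 < r n := fun n => add_pos_of_nonneg_of_pos (h2 n) (by positivity)
  have hcov : K ⊆ ⋃ n, ball (c n) (r n) := by
    intro z hz
    have h5 : z ∈ circleMap 0 1 '' Ioc 0 (2 * Real.pi) := by
      rw [image_circleMap_Ioc, abs_one]
      exact (hKY hz).2
    obtain ⟨θ, hθ1, hθ2⟩ := h5
    have h6 : θ ∈ ⋃ n, t n := h1 ⟨by rw [mem_preimage, hθ2]; exact hz, hθ1⟩
    obtain ⟨n, hn⟩ := mem_iUnion.1 h6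
    refine mem_iUnion.2 ⟨n, ?_⟩
    have hne : (t n).Nonempty := ⟨θ, hn⟩
    have hcn : c n = circleMap 0 1 hne.some := by
      rw [hcd]
      simp only
      rw [dif_pos hne]
    rw [mem_ball, hcn, ← hθ2]
    calc dist (circleMap 0 1 θ) (circleMap 0 1 hne.some) ≤ dist θ hne.some := D12_dist _ _
      _ ≤ D n := h3 n θ hn _ hne.some_mem
      _ < r n := by
        rw [hrd]
        simp only
        have : 0 < ε / 2 * (1 / 2) ^ (n + 1) := by positivity
        linarith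
  obtain ⟨T, hT⟩ := hK.elim_finite_subcover (fun n => ball (c n) (r n)) (fun n => isOpen_ball) hcov
  obtain ⟨m, hm⟩ := T.exists_nat_subset_range
  refine ⟨m, fun l => c l, fun l => r l, fun l => hr l, ?_, ?_⟩
  · rw [Fin.sum_univ_eq_sum_range (fun n => r n) m]
    rw [hrd]
    simp only
    rw [Finset.sum_add_distrib, ← Finset.mul_sum, D12_geom]
    have h5 := h4 m
    have h6 : 0 ≤ ε / 2 * (1 / 2) ^ m := by positivity
    nlinarith
  · refine lt_of_lt_of_le hKν (measure_mono ?_)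
    intro z hz
    have h5 := hT hz
    simp only [mem_iUnion, exists_prop] at h5
    obtain ⟨n, hn, hz2⟩ := h5
    exact mem_iUnion.2 ⟨⟨n, Finset.mem_range.1 (hm hn)⟩, hz2⟩

end Pool.Agent.SG
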