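import Pool.Agent.helper68.SG.SpecK

/-!
# Project sg: (MP_2b8aea_gt), module K06: growth and Lipschitz estimate for the powers of `F`
-/

set_option autoImplicit false

open MeasureTheory Set Metric Filter Topology
open scoped ENNReal NNReal ComplexConjugate

namespace Pool.Agent.SG

theorem K06_one (F : ℂ → ℂ) (C : ℝ) (hC : 1 ≤ C)
    (hg : ∀ z, ‖z‖ < 1 → ‖F z‖ ≤ C * (1 + Real.log (1 / (1 - ‖z‖)))) (k : ℕ) (η : ℝ) (hη : 0 < η)
    (z : ℂ) (hz : η ≤ 1 - ‖z‖) : ‖F z ^ k‖ ≤ (C * (1 + Real.log (1 / η))) ^ k := by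
  rw [norm_pow]
  refine pow_le_pow_left₀ (norm_nonneg _) ((hg z (by linarith)).trans ?_) k
  have h1 : 0 < 1 - ‖z‖ := by linarith
  have h2 : Real.log (1 / (1 - ‖z‖)) ≤ Real.log (1 / η) :=
    Real.log_le_log (by positivity) (one_div_le_one_div_of_le hη hz)
  exact mul_le_mul_of_nonneg_left (by linarith) (by linarith)

theorem K06 : K06_stmt := by
  intro F C hC hF hg k η hη
  refine ⟨fun z hz => K06_one F C hC hg k η hη z hz, fun z w hz hw => ?_⟩
  set f : ℂ → ℂ := fun u => F u ^ k with hf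
  have hfd : DifferentiableOn ℂ f (ball 0 1) := hF.pow k
  have hin : ∀ u ∈ closedBall (0 : ℂ) (1 - η), u ∈ ball (0 : ℂ) 1 := by
    intro u hu
    rw [mem_closedBall_zero_iff] at hu
    rw [mem_ball_zero_iff]
    linarith
  have hda : ∀ u ∈ closedBall (0 : ℂ) (1 - η), DifferentiableAt ℂ f u := fun u hu =>
    hfd.differentiableAt (isOpen_ball.mem_nhds (hin u hu))
  have hbd : ∀ u ∈ closedBall (0 : ℂ) (1 - η),
      ‖deriv f u‖ ≤ (2 / η) * (C * (1 + Real.log (2 / η))) ^ k := by
    intro u hu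
    have hu1 : ‖u‖ ≤ 1 - η := mem_closedBall_zero_iff.1 hu
    have hsub : closedBall u (η / 2) ⊆ ball (0 : ℂ) 1 := by
      intro v hv
      rw [mem_closedBall, dist_eq_norm] at hv
      rw [mem_ball_zero_iff]
      have h1 : ‖v‖ ≤ ‖v - u‖ + ‖u‖ := by
        have := norm_add_le (v - u) u
        rwa [sub_add_cancel] at this
      linarith
    have hdc : DiffContOnCl ℂ f (ball u (η / 2)) :=
      (hfd.mono ((closure_ball_subset_closedBall).trans hsub)).diffContOnCl
    have h2 := Complex.norm_deriv_le_of_forall_mem_sphere_norm_le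
      (C := (C * (1 + Real.log (2 / η))) ^ k) (half_pos hη) hdc (fun v hv => by
        have h3 : dist v u = η / 2 := hv
        rw [dist_eq_norm] at h3
        have h4 : ‖v‖ ≤ ‖v - u‖ + ‖u‖ := by
          have := norm_add_le (v - u) u
          rwa [sub_add_cancel] at this
        have h5 := K06_one F C hC hg k (η / 2) (half_pos hη) v (by linarith)
        rwa [one_div_div] at h5)
    refine h2.trans (le_of_eq ?_)
    field_simp
  have h := Convex.norm_image_sub_le_of_norm_deriv_le (f := f) hda hbd (convex_closedBall 0 (1 - η))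
    (mem_closedBall_zero_iff.2 (by linarith : ‖w‖ ≤ 1 - η))
    (mem_closedBall_zero_iff.2 (by linarith : ‖z‖ ≤ 1 - η))
  exact h

end Pool.Agent.SG
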