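import Pool.Agent.helper80.SG.Spec

/-!
# Project sg: (MP_b5a345_ag), module RKC
-/

set_option autoImplicit false

namespace Pool.Agent.SG

open MvPolynomial Module Pool.Agent.SV

/-- rank-nullity comparison -/
theorem RKC_le {E F G : Type} [AddCommGroup E] [Module ℂ E] [Module.Finite ℂ E]
    [AddCommGroup F] [Module ℂ F] [AddCommGroup G] [Module ℂ G]
    (L : E →ₗ[ℂ] F) (M : E →ₗ[ℂ] G)
    (h : LinearMap.ker M ≤ LinearMap.ker L) :
    finrank ℂ (LinearMap.range L) ≤ finrank ℂ (LinearMap.range M) := by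
  have h1 := LinearMap.finrank_range_add_finrank_ker L
  have h2 := LinearMap.finrank_range_add_finrank_ker M
  have h3 := Submodule.finrank_mono h
  omega

/-- the rank is at most the sum of the ranks -/
theorem RKC_three {E F G : Type} [AddCommGroup E] [Module ℂ E] [Module.Finite ℂ E]
    [AddCommGroup F] [Module ℂ F] [AddCommGroup G] [Module ℂ G]
    (L : E →ₗ[ℂ] F) (M : Fin 3 → E →ₗ[ℂ] G) (D : ℕ)
    (hD : ∀ a, finrank ℂ (LinearMap.range (M a)) ≤ D)
    (h : ∀ f, (∀ a, M a f = 0) → L f = 0) :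
    finrank ℂ (LinearMap.range L) ≤ 3 * D := by
  have h0 := LinearMap.finrank_range_add_finrank_ker L
  have h1 := LinearMap.finrank_range_add_finrank_ker (M 0)
  have h2 := LinearMap.finrank_range_add_finrank_ker (M 1)
  have h3 := LinearMap.finrank_range_add_finrank_ker (M 2)
  have e1 := Submodule.finrank_sup_add_finrank_inf_eq (LinearMap.ker (M 0)) (LinearMap.ker (M 1))
  have e2 := Submodule.finrank_sup_add_finrank_inf_eq
    (LinearMap.ker (M 0) ⊓ LinearMap.ker (M 1)) (LinearMap.ker (M 2))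
  have s1 := Submodule.finrank_le (LinearMap.ker (M 0) ⊔ LinearMap.ker (M 1))
  have s2 := Submodule.finrank_le ((LinearMap.ker (M 0) ⊓ LinearMap.ker (M 1)) ⊔ LinearMap.ker (M 2))
  have hle : (LinearMap.ker (M 0) ⊓ LinearMap.ker (M 1)) ⊓ LinearMap.ker (M 2) ≤
      LinearMap.ker L := by
    intro f hf
    obtain ⟨⟨hf0, hf1⟩, hf2⟩ := hf
    rw [LinearMap.mem_ker]
    refine h f fun a => ?_
    fin_cases a
    · exact hf0
    · exact hf1
    · exact hf2
  have h4 := Submodule.finrank_mono hle
  have d0 := hD 0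
  have d1 := hD 1
  have d2 := hD 2
  omega

theorem RKC_apply {ι κ : Type} [Fintype ι] [DecidableEq ι] [Fintype κ] [DecidableEq κ] (c : ι → κ)
    (d : κ → ℕ) (x : ι → ℂ) (f : ↥(Sec c Finset.univ d)) (i : ι) :
    Phi1 c Finset.univ d false x f i = eval x (pderiv i (f : MvPolynomial ι ℂ)) := by
  have h1 : Phi1 c Finset.univ d false x f =
      gradL Finset.univ (cut Finset.univ x) (f : MvPolynomial ι ℂ) := by simp [Phi1]
  have h2 : cut Finset.univ x = x := by
    funext j
    simp [cut]
  rw [h1, h2, gradL_apply, if_pos (Finset.mem_univ i)]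

theorem RKC (hRKU : RKU_stmt) : RKC_stmt := by
  intro ι κ _ _ _ _ c T d hc
  have hU : ∀ x : ι → ℂ, finrank ℂ (LinearMap.range (Phi1 c Finset.univ d false x)) ≤
      Dk c Finset.univ d := fun x =>
    (hRKU c Finset.univ Finset.univ d subset_rfl
      (fun k => by
        obtain ⟨i, hi⟩ := hc k
        exact ⟨i, Finset.mem_univ i, hi⟩) x).1
  refine ⟨fun P => ?_, fun τ P => ?_⟩
  · refine (RKC_le _ (Phi1 c Finset.univ d false (ptc c T 0 P)) fun f hf => ?_).trans (hU _)
    rw [LinearMap.mem_ker] at hf ⊢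
    funext ai
    obtain ⟨a, i⟩ := ai
    rw [PhiC_apply]
    by_cases ha : a = 0
    · subst ha
      rw [if_neg (by simp)]
      have := congrFun hf i
      rw [RKC_apply] at this
      exact this
    · rw [if_pos ⟨rfl, ha⟩]
      rfl
  · refine RKC_three _ (fun a => Phi1 c Finset.univ d false (ptc c T a P)) _ (fun a => hU _)
      fun f hf => ?_
    funext ai
    obtain ⟨a, i⟩ := ai
    rw [PhiC_apply]
    split_ifs
    · rfl
    · have := congrFun (hf a) i
      rw [RKC_apply] at this
      exact this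

end Pool.Agent.SG
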