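import Pool.Agent.helper80.SG.Spec2

/-!
# Project sq: (MP_b5a345_ag), module RU5: upper bounds for the ranks of the five types
-/

set_option autoImplicit false

namespace Pool.Agent.SG

open MvPolynomial Module Pool.Agent.SV

/-- codimension at most `r` -/
def RU5_Cd {E : Type} [AddCommGroup E] [Module ℂ E] (K : Submodule ℂ E) (r : ℕ) : Prop :=
  finrank ℂ E ≤ finrank ℂ K + r

theorem RU5_ker {E F : Type} [AddCommGroup E] [Module ℂ E] [Module.Finite ℂ E]
    [AddCommGroup F] [Module ℂ F] (M : E →ₗ[ℂ] F) (r : ℕ)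
    (h : finrank ℂ (LinearMap.range M) ≤ r) : RU5_Cd (LinearMap.ker M) r := by
  have h1 := LinearMap.finrank_range_add_finrank_ker M
  unfold RU5_Cd
  omega

theorem RU5_inf {E : Type} [AddCommGroup E] [Module ℂ E] [Module.Finite ℂ E]
    {K K' : Submodule ℂ E} {r r' : ℕ} (h : RU5_Cd K r) (h' : RU5_Cd K' r') :
    RU5_Cd (K ⊓ K') (r + r') := by
  have h1 := Submodule.finrank_sup_add_finrank_inf_eq K K'
  have h2 := Submodule.finrank_le (K ⊔ K')
  unfold RU5_Cd at *
  omega

theorem RU5_rank {E F : Type} [AddCommGroup E] [Module ℂ E] [Module.Finite ℂ E]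
    [AddCommGroup F] [Module ℂ F] (L : E →ₗ[ℂ] F) {K : Submodule ℂ E} {r : ℕ} (h : RU5_Cd K r)
    (hK : ∀ f ∈ K, L f = 0) : finrank ℂ (LinearMap.range L) ≤ r := by
  have h1 := LinearMap.finrank_range_add_finrank_ker L
  have h2 := Submodule.finrank_mono (show K ≤ LinearMap.ker L from fun f hf =>
    LinearMap.mem_ker.2 (hK f hf))
  unfold RU5_Cd at h
  omega

theorem RU5_one {E : Type} [AddCommGroup E] [Module ℂ E] [Module.Finite ℂ E] (M : E →ₗ[ℂ] ℂ) :
    RU5_Cd (LinearMap.ker M) 1 := by
  refine RU5_ker M 1 ((Submodule.finrank_le _).trans ?_)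
  rw [Module.finrank_self]

theorem RU5_grad {ι κ : Type} [Fintype ι] [DecidableEq ι] [Fintype κ] [DecidableEq κ] (c : ι → κ)
    (d : κ → ℕ) (x : ι → ℂ) (f : ↥(Sec c Finset.univ d)) (i : ι) :
    Phi1 c Finset.univ d false x f i = eval x (pderiv i (f : MvPolynomial ι ℂ)) := by
  have h1 : Phi1 c Finset.univ d false x f =
      gradL Finset.univ (cut Finset.univ x) (f : MvPolynomial ι ℂ) := by simp [Phi1]
  have h2 : cut Finset.univ x = x := by
    funext j
    simp [cut]
  rw [h1, h2, gradL_apply, if_pos (Finset.mem_univ i)]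

theorem RU5 (hRKU : RKU_stmt) : RU5_stmt := by
  intro ι κ _ _ _ _ c T d hc t P
  set E := ↥(Sec c Finset.univ d) with hE
  set D := Dk c Finset.univ d with hD
  -- the pieces
  have hG : ∀ a : Fin 3, RU5_Cd (LinearMap.ker (Phi1 c Finset.univ d false (ptc c T a P))) D :=
    fun a => RU5_ker _ _ (hRKU c Finset.univ Finset.univ d subset_rfl
      (fun k => by
        obtain ⟨i, hi⟩ := hc k
        exact ⟨i, Finset.mem_univ i, hi⟩) _).1
  have hV : ∀ a : Fin 3, RU5_Cd (LinearMap.ker ((evL (ptc c T a P)) ∘ₗ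
      (Sec c Finset.univ d).subtype)) 1 := fun a => RU5_one _
  have hT : RU5_Cd (LinearMap.ker ((tgtL c T P) ∘ₗ (Sec c Finset.univ d).subtype)) 1 := RU5_one _
  have gG : ∀ (a : Fin 3) (f : E), f ∈ LinearMap.ker (Phi1 c Finset.univ d false (ptc c T a P)) →
      ∀ i, eval (ptc c T a P) (pderiv i (f : MvPolynomial ι ℂ)) = 0 := by
    intro a f hf i
    have := congrFun (LinearMap.mem_ker.1 hf) i
    rw [RU5_grad] at this
    exact this
  have gV : ∀ (a : Fin 3) (f : E), f ∈ LinearMap.ker ((evL (ptc c T a P)) ∘ₗ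
      (Sec c Finset.univ d).subtype) → eval (ptc c T a P) (f : MvPolynomial ι ℂ) = 0 := by
    intro a f hf
    exact LinearMap.mem_ker.1 hf
  have gT : ∀ f : E, f ∈ LinearMap.ker ((tgtL c T P) ∘ₗ (Sec c Finset.univ d).subtype) →
      tgtL c T P (f : MvPolynomial ι ℂ) = 0 := by
    intro f hf
    exact LinearMap.mem_ker.1 hf
  have key : ∀ f : E, (used5 t (none : Option (Fin 3 × Option ι)) = true →
      tgtL c T P (f : MvPolynomial ι ℂ) = 0) →
      (∀ a : Fin 3, used5 t (some (a, none) : Option (Fin 3 × Option ι)) = true →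
        eval (ptc c T a P) (f : MvPolynomial ι ℂ) = 0) →
      (∀ (a : Fin 3) (i : ι), used5 t (some (a, some i)) = true →
        eval (ptc c T a P) (pderiv i (f : MvPolynomial ι ℂ)) = 0) → Phi5 c T d t P f = 0 := by
    intro f k1 k2 k3
    funext o
    rw [Phi5_apply]
    split_ifs with h
    · rcases o with _ | ⟨a, _ | i⟩
      · exact k1 h
      · show fnl (ptc c T a P) none _ = 0
        rw [fnl_none]
        exact k2 a h
      · show fnl (ptc c T a P) (some i) _ = 0
        rw [fnl_some]
        exact k3 a i h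
    · rfl
  rcases t with _ | ρ
  · refine RU5_rank _ (hG 0) fun f hf => key f (fun h => ?_) (fun a h => ?_) (fun a i h => ?_)
    · simp [used5] at h
    · simp [used5] at h
    · have ha : a = 0 := by simpa [used5] using h
      subst ha
      exact gG _ f hf i
  · fin_cases ρ
    · -- role 0
      refine RU5_rank _ (r := 1 + 1 + 1) (RU5_inf (RU5_inf (hV 0) (hV 1)) (hV 2)) fun f hf =>
        key f (fun h => ?_) (fun a h => ?_) (fun a i h => ?_)
      · simp [used5] at h
      · obtain ⟨⟨f0, f1⟩, f2⟩ := hf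
        fin_cases a
        · exact gV 0 f f0
        · exact gV 1 f f1
        · exact gV 2 f f2
      · simp [used5] at h
    · -- role 1
      refine RU5_rank _ (r := 1 + 1 + 1 + 1) (RU5_inf (RU5_inf (RU5_inf (hV 0) (hV 1)) (hV 2)) hT)
        fun f hf => key f (fun h => ?_) (fun a h => ?_) (fun a i h => ?_)
      · exact gT f hf.2
      · obtain ⟨⟨⟨f0, f1⟩, f2⟩, -⟩ := hf
        fin_cases a
        · exact gV 0 f f0
        · exact gV 1 f f1
        · exact gV 2 f f2
      · simp [used5] at h
    · -- role 2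
      have e : rk5 D (some 2) = D + (1 + 1) := by simp [rk5, rk]
      show finrank ℂ (LinearMap.range (Phi5 c T d (some 2) P)) ≤ rk5 D (some 2)
      rw [e]
      refine RU5_rank _ (RU5_inf (hG 2) (RU5_inf (hV 0) (hV 1))) fun f hf =>
        key f (fun h => ?_) (fun a h => ?_) (fun a i h => ?_)
      · simp [used5] at h
      · obtain ⟨-, f0, f1⟩ := hf
        fin_cases a
        · exact gV 0 f f0
        · exact gV 1 f f1
        · simp [used5] at h
      · have ha : a = 2 := by simpa [used5] using h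
        subst ha
        exact gG _ f hf.1 i
    · -- role 3
      have e : rk5 D (some 3) = D + D := by
        simp [rk5, rk]
        ring
      show finrank ℂ (LinearMap.range (Phi5 c T d (some 3) P)) ≤ rk5 D (some 3)
      rw [e]
      refine RU5_rank _ (RU5_inf (hG 0) (hG 1)) fun f hf =>
        key f (fun h => ?_) (fun a h => ?_) (fun a i h => ?_)
      · simp [used5] at h
      · simp [used5] at h
      · fin_cases a
        · exact gG 0 f hf.1 i
        · exact gG 1 f hf.2 i
        · simp [used5] at h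

end Pool.Agent.SG
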