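import Pool.Agent.helper3.SG.SpecS

/-!
# Project sg: (MP_2b8aea_gt), module S28: positive probability of large displacement
-/

set_option autoImplicit false

open MeasureTheory Set Metric Filter Topology
open scoped ENNReal NNReal ComplexConjugate

namespace Pool.Agent.SG

section
variable {Γ : Type} [Group Γ]

/-- products of `n` elements of the support -/
def S28_Q (W : Walk Γ) : ℕ → Γ → Prop
  | 0, x => x = 1
  | n + 1, x => ∃ y s, S28_Q W n y ∧ s ∈ W.S ∧ x = y * s

theorem S28_sum (W : Walk Γ) : ∑ s ∈ W.S, (W.μ s).toReal = 1 := by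
  have h : ∀ s ∈ W.S, W.μ s ≠ ⊤ := by
    intro s hs
    have h1 : W.μ s ≤ ∑ t ∈ W.S, W.μ t := Finset.single_le_sum (fun _ _ => zero_le) hs
    rw [W.sum] at h1
    exact ne_top_of_le_ne_top ENNReal.one_ne_top h1
  rw [← ENNReal.toReal_sum h, W.sum, ENNReal.toReal_one]

theorem S28_mono (W : Walk Γ) (n : ℕ) : ∀ F G : Γ → ℝ, (∀ x, S28_Q W n x → F x ≤ G x) →
    (W.avr^[n]) F 1 ≤ (W.avr^[n]) G 1 := by
  induction n with
  | zero => exact fun F G h => h 1 rfl
  | succ k ih =>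
    intro F G h
    rw [Function.iterate_succ_apply, Function.iterate_succ_apply]
    refine ih _ _ fun y hy => ?_
    unfold Walk.avr
    refine Finset.sum_le_sum fun s hs => ?_
    exact mul_le_mul_of_nonneg_left (h _ ⟨y, s, hy, hs, rfl⟩) ENNReal.toReal_nonneg

theorem S28_aff (W : Walk Γ) (c d : ℝ) (F : Γ → ℝ) :
    W.avr (fun x => c + d * F x) = fun x => c + d * W.avr F x := by
  funext x
  unfold Walk.avr
  have h : ∀ s ∈ W.S, (W.μ s).toReal * (c + d * F (x * s)) =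
      c * (W.μ s).toReal + d * ((W.μ s).toReal * F (x * s)) := fun s _ => by ring
  rw [Finset.sum_congr rfl h, Finset.sum_add_distrib, ← Finset.mul_sum, ← Finset.mul_sum,
    S28_sum, mul_one]

theorem S28_affn (W : Walk Γ) (c d : ℝ) (F : Γ → ℝ) (n : ℕ) :
    (W.avr^[n]) (fun x => c + d * F x) = fun x => c + d * (W.avr^[n]) F x := by
  induction n generalizing F with
  | zero => rfl
  | succ k ih =>
    rw [Function.iterate_succ_apply, S28_aff, ih, Function.iterate_succ_apply]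

theorem S28_iter (W : Walk Γ) (F : Γ → ℝ) (l : ℝ) (h : ∀ x, W.avr F x = F x + l) (n : ℕ) :
    (W.avr^[n]) F = fun x => n * l + 1 * F x := by
  induction n with
  | zero =>
    funext x
    simp
  | succ k ih =>
    rw [Function.iterate_succ_apply', ih, S28_aff]
    funext x
    rw [h]
    push_cast
    ring

theorem S28_bound (h2 : S02_stmt) (A : DiscRep Γ) (W : Walk Γ) (M : ℝ) (hM : 2 ≤ M)
    (h : ∀ s ∈ W.S, 2 * ‖A.a s‖ ≤ M) (n : ℕ) :
    ∀ x, S28_Q W (n + 1) x → 2 * ‖A.a x‖ ≤ M ^ (n + 1) := by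
  obtain ⟨-, -, h3, -⟩ := h2 Γ A
  induction n with
  | zero =>
    rintro x ⟨y, s, hy, hs, rfl⟩
    have hy' : y = 1 := hy
    rw [hy', one_mul, zero_add, pow_one]
    exact h s hs
  | succ k ih =>
    rintro x ⟨y, s, hy, hs, rfl⟩
    have h4 := ih y hy
    have h5 := h s hs
    calc 2 * ‖A.a (y * s)‖ ≤ 2 * (2 * ‖A.a y‖ * ‖A.a s‖) :=
          mul_le_mul_of_nonneg_left (h3 y s) (by norm_num)
      _ = (2 * ‖A.a y‖) * (2 * ‖A.a s‖) := by ring
      _ ≤ M ^ (k + 1) * M := mul_le_mul h4 h5 (by positivity) (by positivity)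
      _ = M ^ (k + 1 + 1) := by ring

end

theorem S28 (h2 : S02_stmt) (h17 : S17_stmt) (h18 : S18_stmt) : S28_stmt := by
  intro Γ _ A W ν hst ε hε hεl
  have hprob := hst.prob
  obtain ⟨ha1, -, -, -⟩ := h2 Γ A
  obtain ⟨hb, -⟩ := h17
  obtain ⟨hΦ1, hΦ⟩ := h18 Γ A W ν hst
  set l := ell A W ν with hl
  set Φ : Γ → ℝ := fun x => Phi ν (A.a x) (A.b x) with hΦd
  set M : ℝ := 2 + ∑ s ∈ W.S, 2 * ‖A.a s‖ with hMd
  have hM2 : 2 ≤ M := by
    have : 0 ≤ ∑ s ∈ W.S, 2 * ‖A.a s‖ := Finset.sum_nonneg fun s _ => by positivity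
    linarith
  have hMs : ∀ s ∈ W.S, 2 * ‖A.a s‖ ≤ M := by
    intro s hs
    have h1 : 2 * ‖A.a s‖ ≤ ∑ s ∈ W.S, 2 * ‖A.a s‖ :=
      Finset.single_le_sum (f := fun s => 2 * ‖A.a s‖) (fun s _ => by positivity) hs
    linarith
  have hlogM : 0 < Real.log M := Real.log_pos (by linarith)
  have hΦG : ∀ x, Φ x ≤ 2 * Real.log (2 * ‖A.a x‖) := by
    intro x
    have hae : ∀ᵐ ξ ∂ν, ‖cyc (A.a x) (A.b x) ξ‖ ≤ 2 * Real.log (2 * ‖A.a x‖) := by
      have h3 : ∀ᵐ ξ ∂ν, ξ ∈ circ := by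
        rw [ae_iff]
        exact hst.supp
      filter_upwards [h3] with ξ hξ
      rw [Real.norm_eq_abs]
      exact hb _ _ ξ (A.norm_eq x) (mem_sphere_zero_iff_norm.1 hξ)
    have h4 := norm_integral_le_of_norm_le_const hae
    rw [probReal_univ, mul_one] at h4
    exact (le_abs_self _).trans h4
  refine ⟨min 1 (ε / (2 * Real.log M)), lt_min one_pos (by positivity), fun n => ?_⟩
  rcases Nat.eq_zero_or_pos n with hn | hn
  · subst hn
    refine (min_le_left _ _).trans ?_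
    rw [Function.iterate_zero, id_eq, Set.indicator_of_mem]
    · simp
    · show ((0 : ℕ) : ℝ) * (l - ε) ≤ 2 * Real.log (2 * ‖A.a 1‖)
      rw [Nat.cast_zero, zero_mul]
      have := Real.log_nonneg (show (1 : ℝ) ≤ 2 * ‖A.a 1‖ by linarith [ha1 1])
      linarith
  · refine (min_le_right _ _).trans ?_
    obtain ⟨k, rfl⟩ : ∃ k, n = k + 1 := ⟨n - 1, by omega⟩
    set ind : Γ → ℝ := Set.indicator
      {x | ((k + 1 : ℕ) : ℝ) * (l - ε) ≤ 2 * Real.log (2 * ‖A.a x‖)} 1 with hind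
    have hnpos : (0 : ℝ) < ((k + 1 : ℕ) : ℝ) := by positivity
    set N : ℝ := ((k + 1 : ℕ) : ℝ) with hN
    have h5 : ∀ x, S28_Q W (k + 1) x → Φ x ≤ N * (l - ε) + (N * (2 * Real.log M)) * ind x := by
      intro x hx
      refine (hΦG x).trans ?_
      by_cases hx2 : N * (l - ε) ≤ 2 * Real.log (2 * ‖A.a x‖)
      · have h6 : ind x = 1 := by
          rw [hind, Set.indicator_of_mem (show x ∈ {x | N * (l - ε) ≤ 2 * Real.log (2 * ‖A.a x‖)} from hx2)]
          rfl
        rw [h6, mul_one]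
        have h7 := S28_bound h2 A W M hM2 hMs k x hx
        have h8 : Real.log (2 * ‖A.a x‖) ≤ N * Real.log M := by
          have h9 := Real.log_le_log (by linarith [ha1 x]) h7
          rwa [Real.log_pow] at h9
        have h10 : 0 ≤ N * (l - ε) := mul_nonneg hnpos.le (by linarith)
        linarith
      · have h6 : ind x = 0 := by
          rw [hind]
          exact Set.indicator_of_notMem
            (s := {x | N * (l - ε) ≤ 2 * Real.log (2 * ‖A.a x‖)}) hx2 (1 : Γ → ℝ)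
        rw [h6, mul_zero, add_zero]
        exact (not_le.1 hx2).le
    have h11 := S28_mono W (k + 1) Φ _ h5
    rw [S28_affn, S28_iter W Φ l hΦ (k + 1)] at h11
    have h12 : Φ 1 = 0 := hΦ1
    simp only at h11
    rw [h12, mul_zero, add_zero, ← hN] at h11
    have h13 : N * ε ≤ N * (2 * Real.log M * (W.avr^[k + 1]) ind 1) := by linarith
    have h14 := le_of_mul_le_mul_left h13 hnpos
    rw [div_le_iff₀ (by positivity)]
    linarith

end Pool.Agent.SG
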